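import Pool.Agent.HIP.Stmts

/-!
# Squad HIP, row LNV: vanishing minors give a linear relation between the columns
-/

set_option autoImplicit false

namespace Pool.Agent.HIP.H92

theorem lnv : LnvStmt := by
  intro F _ n S v h
  by_cases hW : Submodule.span F (v '' (S : Set ℕ)) = ⊤
  · exfalso
    obtain ⟨b, hb, hspan, hli⟩ := exists_linearIndependent F (v '' (S : Set ℕ))
    have hfin : b.Finite := (S.finite_toSet.image v).subset hb
    have : Fintype b := hfin.fintype
    have htop : ⊤ ≤ Submodule.span F (Set.range ((↑) : b → (Fin n → F))) := by
      rw [Subtype.range_coe, hspan, hW]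
    let B := Module.Basis.mk hli htop
    have hcard : Fintype.card b = n := by
      have h1 := Module.finrank_eq_card_basis B
      rw [Module.finrank_fin_fun] at h1
      exact h1.symm
    let e : Fin n ≃ b := (Fintype.equivFinOfCardEq hcard).symm
    have hex : ∀ x : b, ∃ s ∈ S, v s = x := by
      intro x
      obtain ⟨s, hs, hsx⟩ := hb x.2
      exact ⟨s, hs, hsx⟩
    choose g hgS hg using hex
    have hinj : Function.Injective fun i => g (e i) := by
      intro i i' hi
      apply e.injective
      apply Subtype.ext
      rw [← hg, ← hg]
      exact congrArg v hi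
    have hdet := h (fun i => g (e i)) hinj fun i => hgS _
    have hrow : (Matrix.of fun i j => v (g (e i)) j) = fun i => ((e i : b) : Fin n → F) := by
      funext i j
      exact congrFun (hg (e i)) j
    have hli2 : LinearIndependent F (fun i : Fin n => ((e i : b) : Fin n → F)) :=
      hli.comp e e.injective
    have hu : IsUnit (Matrix.of fun i j => v (g (e i)) j) := by
      rw [← Matrix.linearIndependent_rows_iff_isUnit]
      have h3 : (Matrix.of fun i j => v (g (e i)) j).row =
          fun i : Fin n => ((e i : b) : Fin n → F) := hrow
      rw [h3]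
      exact hli2
    rw [Matrix.isUnit_iff_isUnit_det, hdet] at hu
    exact not_isUnit_zero hu
  · obtain ⟨f, hf, hker⟩ := Submodule.exists_le_ker_of_lt_top _ (lt_top_iff_ne_top.mpr hW)
    refine ⟨fun j => f (Pi.single j 1), ?_, ?_⟩
    · intro hc
      apply hf
      apply LinearMap.pi_ext'
      intro j
      apply LinearMap.ext_ring
      exact congrFun hc j
    · intro s hs
      have h1 : f (v s) = 0 := hker (Submodule.subset_span ⟨s, hs, rfl⟩)
      rw [← h1]
      conv_rhs => rw [pi_eq_sum_univ' (v s)]
      rw [map_sum]
      refine Finset.sum_congr rfl fun j _ => ?_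
      rw [map_smul, smul_eq_mul]

end Pool.Agent.HIP.H92
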